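import Mathlib

/-! A Luzin almost disjoint family, and a curve of non-commuting projections. -/

namespace Pool.Agent.H.MP_b18d32_an

open Filter Topology Set

noncomputable section

abbrev NN : Type := ℕ × ℕ

lemma step0 (C : ℕ → Set NN) (hC : ∀ k, (C k).Infinite)
    (hCC : ∀ j k, j ≠ k → (C j ∩ C k).Finite) :
    ∃ A : Set NN, A.Infinite ∧ (∀ k, (A ∩ C k).Finite) ∧
      ∀ F : Set NN, F.Finite → {k | A ∩ C k ⊆ F}.Finite := by
  have hfin : ∀ k : ℕ, {x : NN | Encodable.encode x < k}.Finite := fun k =>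
    (Set.finite_Iio k).preimage Encodable.encode_injective.injOn
  have : ∀ k, ∃ x ∈ C k, (∀ j < k, x ∉ C j) ∧ k ≤ Encodable.encode x := by
    intro k
    have h1 : ((⋃ j ∈ Set.Iio k, C k ∩ C j) ∪ {x : NN | Encodable.encode x < k}).Finite :=
      ((Set.finite_Iio k).biUnion fun j hj => hCC k j (ne_of_gt hj)).union (hfin k)
    obtain ⟨x, hx, hx'⟩ := (hC k).exists_notMem_finite h1
    simp only [mem_union, mem_iUnion, mem_inter_iff, mem_ofPred_eq, not_or, not_exists, not_and,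
      not_lt, mem_Iio] at hx'
    exact ⟨x, hx, fun j hj => hx'.1 j hj hx, hx'.2⟩
  choose a ha1 ha2 ha3 using this
  have hpre : ∀ F : Set NN, F.Finite → {k | a k ∈ F}.Finite := by
    intro F hF
    obtain ⟨b, hb⟩ := (hF.image Encodable.encode).bddAbove
    exact (Set.finite_Iic b).subset fun k hk => (ha3 k).trans (hb ⟨_, hk, rfl⟩)
  refine ⟨range a, fun h => ?_, fun k => ?_, fun F hF => ?_⟩
  · exact Set.infinite_univ ((hpre _ h).subset fun k _ => mem_range_self k)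
  · refine ((Set.finite_Iic k).image a).subset ?_
    rintro _ ⟨⟨j, rfl⟩, hj⟩
    refine ⟨j, ?_, rfl⟩
    by_contra h
    exact ha2 j k (not_le.1 h) hj
  · exact (hpre F hF).subset fun k hk => hk ⟨mem_range_self k, ha1 k⟩

def col (m : ℕ) : Set NN := {x | x.1 = m}

lemma col_inf (m : ℕ) : (col m).Infinite :=
  Set.infinite_of_injective_forall_mem (f := fun k : ℕ => ((m, k) : NN))
    (fun _ _ h => congrArg Prod.snd h) fun _ => rfl

def Gd {ι : Type} (B : ι → Set NN) (A : Set NN) : Prop :=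
  A.Infinite ∧ (∀ m, (A ∩ col m).Finite) ∧ (∀ i, (A ∩ B i).Finite) ∧
    ∀ F : Set NN, F.Finite → {i | A ∩ B i ⊆ F}.Finite

lemma step1 {ι : Type} [Countable ι] (B : ι → Set NN) (h1 : ∀ i, (B i).Infinite)
    (h2 : ∀ i m, (B i ∩ col m).Finite) (h3 : ∀ i j, i ≠ j → (B i ∩ B j).Finite) :
    ∃ A, Gd B A := by
  obtain ⟨d⟩ := nonempty_denumerable (ι ⊕ ℕ)
  let e : ℕ ≃ ι ⊕ ℕ := (Denumerable.eqv (ι ⊕ ℕ)).symm
  let B' : ι ⊕ ℕ → Set NN := Sum.elim B col
  have hB' : ∀ s t, s ≠ t → (B' s ∩ B' t).Finite := by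
    rintro (i | m) (j | n) h
    · exact h3 i j fun e => h (by rw [e])
    · exact h2 i n
    · rw [inter_comm]; exact h2 j m
    · have : m ≠ n := fun e => h (by rw [e])
      refine Set.finite_empty.subset ?_
      rintro x ⟨hx, hx'⟩
      exact this (hx.symm.trans hx')
  obtain ⟨A, hA1, hA2, hA3⟩ := step0 (fun k => B' (e k))
    (fun k => by
      cases e k with
      | inl i => exact h1 i
      | inr m => exact col_inf m)
    (fun j k h => hB' _ _ (e.injective.ne h))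
  refine ⟨A, hA1, fun m => ?_, fun i => ?_, fun F hF => ?_⟩
  · simpa [B'] using hA2 (e.symm (Sum.inr m))
  · simpa [B'] using hA2 (e.symm (Sum.inl i))
  · refine ((hA3 F hF).preimage (f := fun i => e.symm (Sum.inl i))
      (e.symm.injective.comp Sum.inl_injective).injOn).subset fun i hi => ?_
    simpa [B'] using hi

abbrev WW : Type := (Cardinal.aleph 1).ord.ToType

lemma WW_Iio (a : WW) : (Iio a).Countable := by
  rw [← Cardinal.le_aleph0_iff_set_countable, ← Cardinal.lt_aleph_one_iff]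
  simpa using Cardinal.mk_Iio_lt a

instance : Uncountable WW := by
  rw [← Cardinal.aleph0_lt_mk_iff]
  simp

lemma exists_t : ∃ t : WW → ℝ, Function.Injective t := by
  have : Cardinal.mk WW ≤ Cardinal.mk ℝ := by
    simp
  obtain ⟨f⟩ := this
  exact ⟨f, f.injective⟩

open Classical in
def LL : WW → Set NN :=
  WellFounded.fix wellFounded_lt fun a f =>
    if h : ∃ A, Gd (fun b : Iio a => f b.1 b.2) A then h.choose else ∅

lemma LL_gd (a : WW) : Gd (fun b : Iio a => LL b.1) (LL a) := by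
  induction a using WellFoundedLT.induction with
  | ind a ih =>
    have : Countable (Iio a) := (WW_Iio a).to_subtype
    have h : ∃ A, Gd (fun b : Iio a => LL b.1) A := by
      refine step1 _ (fun b => (ih b b.2).1) (fun b m => (ih b b.2).2.1 m) fun b c hbc => ?_
      rcases lt_or_gt_of_ne (Subtype.coe_injective.ne hbc) with h | h
      · rw [inter_comm]; exact (ih c c.2).2.2.1 ⟨b, h⟩
      · exact (ih b b.2).2.2.1 ⟨c, h⟩
    have e : LL a = h.choose := by
      refine (WellFounded.fix_eq _ _ a).trans ?_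
      exact dif_pos h
    rw [e]
    exact h.choose_spec

lemma LL_inf (a : WW) : (LL a).Infinite := (LL_gd a).1

lemma LL_ad {a b : WW} (h : a ≠ b) : (LL a ∩ LL b).Finite := by
  rcases lt_or_gt_of_ne h with h | h
  · rw [inter_comm]; exact (LL_gd b).2.2.1 ⟨a, h⟩
  · exact (LL_gd a).2.2.1 ⟨b, h⟩

lemma pigeon (U : Set WW) (hU : ¬ U.Countable) (g : WW → Set NN) (hg : ∀ a ∈ U, (g a).Finite) :
    ∃ F : Set NN, F.Finite ∧ ¬ {a ∈ U | g a = F}.Countable := by
  by_contra hc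
  push Not at hc
  refine hU (((Set.countable_ofPred_finite_subset (countable_univ (α := NN))).biUnion
    fun F hF => hc F hF.1).mono fun a ha => ?_)
  exact mem_biUnion (x := g a) ⟨hg a ha, subset_univ _⟩ ⟨ha, rfl⟩

theorem luzin (U1 U2 : Set WW) (h1 : ¬ U1.Countable) (h2 : ¬ U2.Countable) (S T : Set NN)
    (hS : ∀ a ∈ U1, (LL a \ S).Finite) (hT : ∀ a ∈ U2, (LL a \ T).Finite) (hST : Disjoint S T) :
    False := by
  obtain ⟨F1, hF1, k1⟩ := pigeon U1 h1 _ hS
  obtain ⟨F2, hF2, k2⟩ := pigeon U2 h2 _ hT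
  have hinf : {a ∈ U2 | LL a \ T = F2}.Infinite := fun h => k2 h.countable
  obtain ⟨V, hV1, hV3, hV2⟩ := hinf.exists_subset_countable_infinite
  have hcount : (⋃ b ∈ V, Iic b).Countable := hV3.biUnion fun b _ => by
    rw [← Iio_insert]; exact (WW_Iio b).insert b
  obtain ⟨a, ha, ha'⟩ : ∃ a ∈ {a ∈ U1 | LL a \ S = F1}, a ∉ ⋃ b ∈ V, Iic b := by
    by_contra hc
    push Not at hc
    exact k1 (hcount.mono hc)
  have hlt : ∀ b ∈ V, b < a := fun b hb => by
    by_contra h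
    exact ha' (mem_biUnion hb (not_lt.1 h))
  have := (LL_gd a).2.2.2 (F1 ∪ F2) (hF1.union hF2)
  refine hV2 ((this.image Subtype.val).subset fun b hb => ⟨⟨b, hlt b hb⟩, ?_, rfl⟩)
  rintro x ⟨hx1, hx2⟩
  by_cases hxS : x ∈ S
  · right
    rw [← (hV1 hb).2]
    exact ⟨hx2, fun hxT => Set.disjoint_left.1 hST hxS hxT⟩
  · left
    rw [← ha.2]
    exact ⟨hx1, hxS⟩

/-- two distinct condensation points -/
lemma two_points {W : Type} (t : W → ℝ) (ht : Function.Injective t) (U : Set W)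
    (hU : ¬ U.Countable) : ∃ x y : ℝ, x ≠ y ∧ (∀ V ∈ 𝓝 x, ¬ (U ∩ t ⁻¹' V).Countable) ∧
      ∀ V ∈ 𝓝 y, ¬ (U ∩ t ⁻¹' V).Countable := by
  let C : Set ℝ := {x | ∀ V ∈ 𝓝 x, ¬ (U ∩ t ⁻¹' V).Countable}
  have h : ∀ x ∈ Cᶜ, ∃ V ∈ 𝓝 x, (U ∩ t ⁻¹' V).Countable := by
    intro x hx
    simpa [C] using hx
  choose! V hV1 hV2 using h
  obtain ⟨s, hs1, hs2, hs3⟩ := TopologicalSpace.countable_cover_nhdsWithin (s := Cᶜ) (f := V)
    (fun x hx => mem_nhdsWithin_of_mem_nhds (hV1 x hx))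
  have hc : (U ∩ t ⁻¹' Cᶜ).Countable := by
    refine (hs2.biUnion fun x hx => hV2 x (hs1 hx)).mono ?_
    rintro a ⟨ha, ha'⟩
    obtain ⟨x, hx, hx'⟩ := mem_iUnion₂.1 (hs3 ha')
    exact mem_biUnion hx ⟨ha, hx'⟩
  have hn : ¬ (U ∩ t ⁻¹' C).Countable := fun h => hU ((h.union hc).mono fun a ha => by
    by_cases h' : t a ∈ C
    · exact Or.inl ⟨ha, h'⟩
    · exact Or.inr ⟨ha, h'⟩)
  have hnt : (U ∩ t ⁻¹' C).Nontrivial := by
    by_contra h
    exact hn (Set.not_nontrivial_iff.1 h).countable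
  obtain ⟨a, ha, b, hb, hab⟩ := hnt
  exact ⟨t a, t b, ht.ne hab, ha.2, hb.2⟩

abbrev MM : Type := EuclideanSpace ℂ (Fin 2) →L[ℂ] EuclideanSpace ℂ (Fin 2)

def PM (t : ℝ) : Matrix (Fin 2) (Fin 2) ℂ :=
  ((1 + t ^ 2 : ℝ) : ℂ)⁻¹ • (!![1, 0; 0, 0] + (t : ℂ) • !![0, 1; 1, 0] + (t : ℂ) ^ 2 • !![0, 0; 0, 1])

lemma one_add_ne (t : ℝ) : ((1 + t ^ 2 : ℝ) : ℂ) ≠ 0 := by
  exact_mod_cast (by positivity : (1 + t ^ 2 : ℝ) ≠ 0)

theorem exists_p : ∃ p : ℝ → MM, Continuous p ∧ (∀ t, p t * p t = p t) ∧ (∀ t, star (p t) = p t) ∧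
    (∀ t, p t ≠ 0) ∧ ∀ s t, s ≠ t → 0 < s → 0 < t → p s * p t ≠ p t * p s := by
  let Φ := Matrix.toEuclideanCLM (n := Fin 2) (𝕜 := ℂ)
  refine ⟨fun t => Φ (PM t), ?_, fun t => ?_, fun t => ?_, fun t h => ?_, fun s t hst hs ht h => ?_⟩
  · simp only [PM, map_smul, map_add]
    refine Continuous.smul (Continuous.inv₀ (by fun_prop) one_add_ne) (by fun_prop)
  · rw [← map_mul]
    congr 1
    have := one_add_ne t
    push_cast at this
    ext i j
    fin_cases i <;> fin_cases j <;> simp [PM, Matrix.mul_apply, Fin.sum_univ_two] <;>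
      field_simp
  · rw [← map_star]
    congr 1
    ext i j
    fin_cases i <;> fin_cases j <;> simp [PM, Matrix.star_apply]
  · have h0 : PM t = 0 := Φ.injective (by rw [map_zero]; exact h)
    have := congrFun (congrFun h0 0) 0
    have h1 := one_add_ne t
    push_cast at h1
    simp [PM, h1] at this
  · rw [← map_mul, ← map_mul] at h
    have h0 := congrFun (congrFun (Φ.injective h) 0) 1
    have h1 := one_add_ne s
    have h2 := one_add_ne t
    push_cast at h1 h2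
    simp [PM, Matrix.mul_apply, Fin.sum_univ_two] at h0
    field_simp at h0
    have h3 : ((t - s) * (1 + s * t) : ℝ) = 0 := by
      have : ((t - s) * (1 + s * t) : ℂ) = 0 := by linear_combination h0
      exact_mod_cast this
    rcases mul_eq_zero.1 h3 with h4 | h4
    · exact hst (by linarith)
    · nlinarith [mul_pos hs ht]

end

end Pool.Agent.H.MP_b18d32_an
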