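import Mathlib

/-! Banach modules, relative projectivity, hereditary algebras. -/

namespace Pool.Agent.H.MP_b18d32_an.Defs

/-- `act` is a continuous left module action for the product `mul` -/
def IsMod {A X : Type} [NormedAddCommGroup A] [NormedSpace ℂ A] [NormedAddCommGroup X]
    [NormedSpace ℂ X] (mul : A → A → A) (act : A → X → X) : Prop :=
  IsBoundedBilinearMap ℂ (fun p : A × X => act p.1 p.2) ∧
    ∀ a b x, act (mul a b) x = act a (act b x)

/-- bounded linear module map -/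
def IsMor {A X Y : Type} [NormedAddCommGroup X] [NormedSpace ℂ X] [NormedAddCommGroup Y]
    [NormedSpace ℂ Y] (aX : A → X → X) (aY : A → Y → Y) (f : X → Y) : Prop :=
  IsBoundedLinearMap ℂ f ∧ ∀ a x, f (aX a x) = aY a (f x)

/-- `f` has a bounded linear right inverse -/
def Adm {X Y : Type} [NormedAddCommGroup X] [NormedSpace ℂ X] [NormedAddCommGroup Y]
    [NormedSpace ℂ Y] (f : X → Y) : Prop :=
  ∃ ρ : Y → X, IsBoundedLinearMap ℂ ρ ∧ ∀ y, f (ρ y) = y

/-- relative projectivity -/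
def Proj {A : Type} [NormedAddCommGroup A] [NormedSpace ℂ A] (mul : A → A → A) (P : Type)
    [NormedAddCommGroup P] [NormedSpace ℂ P] (aP : A → P → P) : Prop :=
  ∀ (X Y : Type) [NormedAddCommGroup X] [NormedSpace ℂ X] [CompleteSpace X]
    [NormedAddCommGroup Y] [NormedSpace ℂ Y] [CompleteSpace Y] (aX : A → X → X) (aY : A → Y → Y),
    IsMod mul aX → IsMod mul aY → ∀ σ : X → Y, IsMor aX aY σ → Adm σ →
    ∀ φ : P → Y, IsMor aP aY φ → ∃ ψ : P → X, IsMor aP aX ψ ∧ ∀ p, σ (ψ p) = φ p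

/-- every closed left ideal is projective -/
def Hered (A : Type) [NonUnitalNormedRing A] [NormedSpace ℂ A] : Prop :=
  ∀ L : Submodule ℂ A, IsClosed (L : Set A) → ∀ h : (∀ a, ∀ x ∈ L, a * x ∈ L),
    Proj (fun a b : A => a * b) L (fun a x => ⟨a * x.1, h a x.1 x.2⟩)

end Pool.Agent.H.MP_b18d32_an.Defs
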