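import Mathlib
import Pool.Agent.H.MP_b18d32_an.Defs

/-! Separable commutative C*-algebras are hereditary. -/

namespace Pool.Agent.H.MP_b18d32_an

open Filter Topology Set Defs

noncomputable section

/-- sign patterns -/
def Sg (ε : ℕ → ℂ) : Prop := ∀ n, ε n = 1 ∨ ε n = -1

lemma avg {U V X : Type} [NormedAddCommGroup U] [NormedSpace ℂ U] [NormedAddCommGroup V]
    [NormedSpace ℂ V] [NormedAddCommGroup X] [NormedSpace ℂ X] (β : U →L[ℂ] V →L[ℂ] X)
    (a : ℕ → U) (b : ℕ → V) (F : Finset ℕ) (M : ℝ) : ∀ (u : U) (v : V),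
    (∀ ε, Sg ε → ‖u + ∑ n ∈ F, ε n • a n‖ * ‖v + ∑ n ∈ F, ε n • b n‖ ≤ M) →
    ‖β u v + ∑ n ∈ F, β (a n) (b n)‖ ≤ ‖β‖ * M := by
  classical
  induction F using Finset.induction_on with
  | empty =>
    intro u v h
    have := h (fun _ => 1) (fun _ => Or.inl rfl)
    simp only [Finset.sum_empty, add_zero] at this ⊢
    exact (β.le_opNorm₂ u v).trans (by rw [mul_assoc]; gcongr)
  | insert k F hk ih =>
    intro u v h
    have key : ∀ s : ℂ, (s = 1 ∨ s = -1) →
        ‖β (u + s • a k) (v + s • b k) + ∑ n ∈ F, β (a n) (b n)‖ ≤ ‖β‖ * M := by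
      intro s hs
      refine ih _ _ fun ε hε => ?_
      have := h (Function.update ε k s) (fun n => by
        by_cases e : n = k
        · rw [e, Function.update_self]; exact hs
        · rw [Function.update_of_ne e]; exact hε n)
      have e1 : ∀ {W : Type} [AddCommGroup W] [Module ℂ W] (c : ℕ → W),
          ∑ n ∈ insert k F, Function.update ε k s n • c n = s • c k + ∑ n ∈ F, ε n • c n := by
        intro W _ _ c
        rw [Finset.sum_insert hk, Function.update_self]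
        congr 1
        exact Finset.sum_congr rfl fun n hn => by
          rw [Function.update_of_ne (ne_of_mem_of_not_mem hn hk)]
      rwa [e1, e1, ← add_assoc, ← add_assoc] at this
    have h1 := key 1 (Or.inl rfl)
    have h2 := key (-1) (Or.inr rfl)
    have e : β u v + ∑ n ∈ insert k F, β (a n) (b n) = (1 / 2 : ℂ) •
        ((β (u + (1 : ℂ) • a k) (v + (1 : ℂ) • b k) + ∑ n ∈ F, β (a n) (b n)) +
        (β (u + (-1 : ℂ) • a k) (v + (-1 : ℂ) • b k) + ∑ n ∈ F, β (a n) (b n))) := by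
      rw [Finset.sum_insert hk]
      simp only [map_add, map_smul, add_apply, smul_apply]
      module
    rw [e, norm_smul]
    have := norm_add_le (β (u + (1 : ℂ) • a k) (v + (1 : ℂ) • b k) + ∑ n ∈ F, β (a n) (b n))
      (β (u + (-1 : ℂ) • a k) (v + (-1 : ℂ) • b k) + ∑ n ∈ F, β (a n) (b n))
    have e2 : ‖(1 / 2 : ℂ)‖ = 1 / 2 := by simp
    rw [e2]
    linarith

lemma avg' {U V X : Type} [NormedAddCommGroup U] [NormedSpace ℂ U] [NormedAddCommGroup V]
    [NormedSpace ℂ V] [NormedAddCommGroup X] [NormedSpace ℂ X] (β : U →L[ℂ] V →L[ℂ] X) :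
    ∃ C : ℝ, 0 ≤ C ∧ ∀ (a : ℕ → U) (b : ℕ → V) (F : Finset ℕ) (M : ℝ),
    (∀ ε, Sg ε → ‖∑ n ∈ F, ε n • a n‖ * ‖∑ n ∈ F, ε n • b n‖ ≤ M) →
    ‖∑ n ∈ F, β (a n) (b n)‖ ≤ C * M :=
  ⟨‖β‖, β.opNorm_nonneg, fun a b F M h => by
    simpa using avg β a b F M 0 0 fun ε hε => by simpa using h ε hε⟩

theorem proj_of {A : Type} [NonUnitalNormedRing A] [NormedSpace ℂ A] [IsScalarTower ℂ A A]
    [SMulCommClass ℂ A A] (L : Submodule ℂ A) (h : ∀ a, ∀ x ∈ L, a * x ∈ L) (a : ℕ → A)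
    (b : ℕ → L) (hb : ∀ (F : Finset ℕ) ε, Sg ε → ‖∑ n ∈ F, ε n • b n‖ ≤ 3)
    (ha : ∀ (x : L) (F : Finset ℕ) ε, Sg ε → ‖∑ n ∈ F, ε n • (x.1 * a n)‖ ≤ ‖x‖)
    (hv : ∀ (x : L) (δ : ℝ), 0 < δ → ∃ F0 : Finset ℕ, ∀ F, Disjoint F F0 → ∀ ε, Sg ε →
      ‖∑ n ∈ F, ε n • (x.1 * a n)‖ ≤ δ)
    (hs : ∀ x : L, Tendsto (fun N => ∑ n ∈ Finset.range N, x.1 * a n * (b n).1) atTop (𝓝 x.1)) :
    Proj (fun a b : A => a * b) L (fun a x => ⟨a * x.1, h a x.1 x.2⟩) := by
  intro X Y _ _ _ _ _ _ aX aY hX hY σ hσ ⟨ρ, hρ, hρ'⟩ φ hφ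
  let act : A →L[ℂ] X →L[ℂ] X := hX.1.toContinuousLinearMap
  have hact : ∀ c x, act c x = aX c x := fun c x => rfl
  let r : L →L[ℂ] X := hρ.toContinuousLinearMap.comp hφ.1.toContinuousLinearMap
  let β : A →L[ℂ] L →L[ℂ] X := ((ContinuousLinearMap.compL ℂ L X X).flip r).comp act
  have hβ : ∀ c y, β c y = aX c (ρ (φ y)) := fun c y => rfl
  obtain ⟨C, hC0, hC⟩ := avg' (U := A) (V := L) (X := X) β
  have bound : ∀ (x : L) (F : Finset ℕ) (δ : ℝ), 0 ≤ δ →
      (∀ ε, Sg ε → ‖∑ n ∈ F, ε n • (x.1 * a n)‖ ≤ δ) →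
      ‖∑ n ∈ F, β (x.1 * a n) (b n)‖ ≤ C * (δ * 3) := by
    intro x F δ hδ hF
    exact hC (fun n => x.1 * a n) b F (δ * 3) fun ε hε =>
      mul_le_mul (hF ε hε) (hb F ε hε) (norm_nonneg _) hδ
  have hsum : ∀ x : L, Summable fun n => β (x.1 * a n) (b n) := by
    intro x
    refine summable_iff_vanishing_norm.2 fun e he => ?_
    obtain ⟨F0, hF0⟩ := hv x (e / (C * 3 + 1)) (by positivity)
    refine ⟨F0, fun F hF => lt_of_le_of_lt (bound x F _ (by positivity) (hF0 F hF)) ?_⟩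
    have : C * (e / (C * 3 + 1) * 3) = e * (C * 3 / (C * 3 + 1)) := by ring
    rw [this]
    exact mul_lt_of_lt_one_right he ((div_lt_one (by positivity)).2 (by linarith))
  refine ⟨fun x => ∑' n, β (x.1 * a n) (b n), ⟨⟨⟨fun x y => ?_, fun c x => ?_⟩, C * 3 + 1,
    by positivity, fun x => ?_⟩, fun c x => ?_⟩, fun x => ?_⟩
  · rw [← (hsum x).tsum_add (hsum y)]
    simp only [Submodule.coe_add, add_mul, map_add, add_apply]
  · rw [← (hsum x).tsum_const_smul c]
    simp only [Submodule.coe_smul, smul_mul_assoc, map_smul, smul_apply]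
  · have ht : Tendsto (fun F : Finset ℕ => ∑ n ∈ F, β (x.1 * a n) (b n)) atTop
        (𝓝 (∑' n, β (x.1 * a n) (b n))) := (hsum x).hasSum
    refine le_of_tendsto' ht.norm fun F => (bound x F _ (norm_nonneg _) (ha x F)).trans ?_
    nlinarith [norm_nonneg x]
  · rw [← hact, (act c).map_tsum (hsum x)]
    refine tsum_congr fun n => ?_
    rw [hβ, hβ, hact, ← hX.2, mul_assoc]
  · have h1 := (hσ.1.toContinuousLinearMap.hasSum (hsum x).hasSum).tendsto_sum_nat
    have h2 : Tendsto (fun N => ∑ n ∈ Finset.range N,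
        (⟨x.1 * a n * (b n).1, h _ _ (b n).2⟩ : L)) atTop (𝓝 x) := by
      rw [tendsto_subtype_rng]
      simpa using hs x
    have h3 := (hφ.1.toContinuousLinearMap.continuous.tendsto x).comp h2
    refine tendsto_nhds_unique h1 (h3.congr fun N => ?_)
    simp only [Function.comp, map_sum]
    refine Finset.sum_congr rfl fun n _ => ?_
    show φ _ = σ (β _ _)
    rw [hβ, hσ.2, hρ']
    exact hφ.2 _ (b n)

/-- the cut-off functions -/
def tau (n : ℕ) (t : ℝ) : ℝ := if n ≤ 1 then 0 else min 1 (max 0 (2 ^ n * t - 1))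

lemma tau_cont (n : ℕ) : Continuous (tau n) := by
  unfold tau
  split_ifs
  · exact continuous_const
  · fun_prop

lemma tau_zero (n : ℕ) : tau n 0 = 0 := by
  unfold tau; split_ifs <;> simp

lemma tau_nonneg (n : ℕ) (t : ℝ) : 0 ≤ tau n t := by
  unfold tau; split_ifs <;> simp

lemma tau_le (n : ℕ) (t : ℝ) : tau n t ≤ 1 := by
  unfold tau; split_ifs <;> simp

lemma tau_one {n : ℕ} {t : ℝ} (hn : 2 ≤ n) (h : 2 ≤ 2 ^ n * t) : tau n t = 1 := by
  rw [tau, if_neg (by omega), min_eq_left]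
  exact le_max_of_le_right (by linarith)

lemma tau_or {j k : ℕ} (h : j < k) (t : ℝ) : tau j t = 0 ∨ tau k t = 1 := by
  by_cases hj : j ≤ 1
  · left; rw [tau, if_pos hj]
  by_cases h1 : 2 ^ j * t ≤ 1
  · left
    rw [tau, if_neg hj, max_eq_left (by linarith)]
    simp
  · right
    refine tau_one (by omega) ?_
    have ht : 0 < t := by
      by_contra h2
      have : (2 : ℝ) ^ j * t ≤ 0 := mul_nonpos_of_nonneg_of_nonpos (by positivity) (not_lt.1 h2)
      linarith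
    have : (2 : ℝ) ^ (j + 1) ≤ 2 ^ k := pow_le_pow_right₀ (by norm_num) h
    have h3 : (2 : ℝ) ^ (j + 1) * t ≤ 2 ^ k * t := by gcongr
    rw [pow_succ] at h3
    nlinarith [not_le.1 h1]

lemma tau_mono {j k : ℕ} (h : j ≤ k) (t : ℝ) : tau j t ≤ tau k t := by
  rcases h.eq_or_lt with rfl | h
  · exact le_rfl
  rcases tau_or h t with e | e
  · rw [e]; exact tau_nonneg _ _
  · rw [e]; exact tau_le _ _

lemma tau_mul {j k : ℕ} (h : j < k) (t : ℝ) : tau j t * tau k t = tau j t := by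
  rcases tau_or h t with e | e <;> simp [e]

lemma sum_tau (N m : ℕ) (F : Finset ℕ) (hF : ∀ n ∈ F, N ≤ n) (t : ℝ) :
    ∑ n ∈ F, (tau (n + m + 1) t - tau (n + m) t) ≤ 1 - tau (N + m) t := by
  obtain ⟨K, hK⟩ := F.bddAbove
  have hsub : F ⊆ Finset.Ico N (max N (K + 1)) := fun n hn =>
    Finset.mem_Ico.2 ⟨hF n hn, lt_max_of_lt_right (Nat.lt_succ_of_le (hK hn))⟩
  refine (Finset.sum_le_sum_of_subset_of_nonneg hsub fun n _ _ =>
    sub_nonneg.2 (tau_mono (Nat.le_succ _) t)).trans ?_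
  have := Finset.sum_Ico_sub (fun n => tau (n + m) t) (le_max_left N (K + 1))
  simp only [Nat.add_right_comm _ 1 m] at this
  rw [this]
  linarith [tau_le (max N (K + 1) + m) t]

lemma sg_norm {ε : ℕ → ℂ} (h : Sg ε) (n : ℕ) : ‖ε n‖ = 1 := by
  rcases h n with e | e <;> simp [e]

lemma norm_sg_sum (F : Finset ℕ) (ε : ℕ → ℂ) (h : Sg ε) (z : ℂ) (w : ℕ → ℝ) (hw : ∀ n, 0 ≤ w n) :
    ‖∑ n ∈ F, ε n * (z * (w n : ℂ))‖ ≤ ‖z‖ * ∑ n ∈ F, w n := by
  refine (norm_sum_le _ _).trans (le_of_eq ?_)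
  rw [Finset.mul_sum]
  refine Finset.sum_congr rfl fun n _ => ?_
  rw [norm_mul, norm_mul, sg_norm h, one_mul, Complex.norm_real, Real.norm_of_nonneg (hw n)]

/-- representation of a commutative algebra by functions -/
theorem hered_of_rep {D Ω : Type} [NonUnitalNormedRing D] [NormedSpace ℂ D] [IsScalarTower ℂ D D]
    [SMulCommClass ℂ D D] [CompleteSpace D] [TopologicalSpace.SeparableSpace D]
    [TopologicalSpace Ω] [CompactSpace Ω] [T2Space Ω] (Φ : D →ₗ[ℂ] C(Ω, ℂ))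
    (hn : ∀ x, ‖Φ x‖ = ‖x‖) (hm : ∀ x y, Φ (x * y) = Φ x * Φ y)
    (hs : ∀ g : C(Ω, ℂ), ∃ (c : ℂ) (d : D), g = c • 1 + Φ d) : Hered D := by
  intro L hL h
  have hiso : Isometry Φ := AddMonoidHomClass.isometry_of_norm Φ hn
  let J : Ideal C(Ω, ℂ) :=
    { carrier := Φ '' L
      add_mem' := by
        rintro _ _ ⟨x, hx, rfl⟩ ⟨y, hy, rfl⟩
        exact ⟨x + y, L.add_mem hx hy, map_add _ _ _⟩
      zero_mem' := ⟨0, L.zero_mem, map_zero _⟩
      smul_mem' := by
        rintro g _ ⟨x, hx, rfl⟩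
        obtain ⟨c, d, rfl⟩ := hs g
        refine ⟨c • x + d * x, L.add_mem (L.smul_mem c hx) (h d x hx), ?_⟩
        rw [map_add, map_smul, hm, smul_eq_mul, add_mul, smul_mul_assoc, one_mul] }
  have hJ : IsClosed (J : Set C(Ω, ℂ)) := hiso.isClosedEmbedding.isClosedMap _ hL
  have hmem : ∀ g : C(Ω, ℂ), (∀ s, (∀ x ∈ L, Φ x s = 0) → g s = 0) → ∃ x ∈ L, Φ x = g := by
    intro g hg
    have : g ∈ ContinuousMap.idealOfSet ℂ (ContinuousMap.setOfIdeal J) := by
      rw [ContinuousMap.mem_idealOfSet]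
      intro s hs
      exact hg s fun x hx => ContinuousMap.notMem_setOfIdeal.1 hs ⟨x, hx, rfl⟩
    rw [ContinuousMap.idealOfSet_ofIdeal_isClosed hJ] at this
    exact this
  have : Nonempty L := ⟨0⟩
  have : SecondCountableTopology D := UniformSpace.secondCountable_of_separable D
  obtain ⟨xs, hxs⟩ := TopologicalSpace.exists_dense_seq L
  let u : ℕ → Ω → ℝ := fun k s => (1 / 2) ^ k * min 1 ‖Φ (xs k).1 s‖
  have hu0 : ∀ k s, 0 ≤ u k s := fun k s => by positivity
  have hu1 : ∀ k s, ‖u k s‖ ≤ (1 / 2) ^ k := fun k s => by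
    rw [Real.norm_of_nonneg (hu0 k s)]
    exact mul_le_of_le_one_right (by positivity) (min_le_left _ _)
  have hsum : ∀ s, Summable fun k => u k s := fun s =>
    Summable.of_norm_bounded summable_geometric_two fun k => hu1 k s
  let hh : Ω → ℝ := fun s => ∑' k, u k s
  have hc : Continuous hh := continuous_tsum (fun k => by fun_prop) summable_geometric_two hu1
  have hz : ∀ s, (∀ x ∈ L, Φ x s = 0) → hh s = 0 := by
    intro s hs
    simp [hh, u, hs _ (xs _).2]
  have hpos : ∀ s (x : L), Φ x.1 s ≠ 0 → 0 < hh s := by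
    intro s x hx
    have hcont : Continuous fun y : L => Φ y.1 s :=
      (ContinuousEvalConst.continuous_eval_const s).comp
        (hiso.continuous.comp continuous_subtype_val)
    obtain ⟨k, hk⟩ := hxs.exists_mem_open (isOpen_ne_fun hcont continuous_const) ⟨x, hx⟩
    refine (hsum s).tsum_pos (fun k => hu0 k s) k ?_
    have : 0 < ‖Φ (xs k).1 s‖ := norm_pos_iff.2 hk
    positivity
  have he : ∀ n, ∃ x ∈ L, ∀ s, Φ x s = (tau n (hh s) : ℂ) := by
    intro n
    obtain ⟨x, hx, e⟩ := hmem ⟨fun s => (tau n (hh s) : ℂ),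
      Complex.continuous_ofReal.comp ((tau_cont n).comp hc)⟩ fun s hs => by
        simp [hz s hs, tau_zero]
    exact ⟨x, hx, fun s => by rw [e]; rfl⟩
  choose e he1 he2 using he
  have normle : ∀ (y : D) (δ : ℝ), 0 ≤ δ → (∀ s, ‖Φ y s‖ ≤ δ) → ‖y‖ ≤ δ := fun y δ hδ hy => by
    rw [← hn]; exact (ContinuousMap.norm_le _ hδ).2 hy
  have au : ∀ (x : L) (δ : ℝ), 0 < δ → ∃ N, ∀ n ≥ N, ∀ s, ‖Φ x.1 s‖ * (1 - tau n (hh s)) ≤ δ := by
    intro x δ hδ
    have hK : IsCompact {s | δ ≤ ‖Φ x.1 s‖} :=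
      (isClosed_le continuous_const (by fun_prop)).isCompact
    obtain ⟨η, hη, hη'⟩ : ∃ η > 0, ∀ s, δ ≤ ‖Φ x.1 s‖ → η ≤ hh s := by
      obtain ⟨η, hη, hη'⟩ := hK.exists_forall_le' hc.continuousOn (a := 0) fun s hs =>
        hpos s x (norm_pos_iff.1 (hδ.trans_le hs))
      exact ⟨η, hη, fun s hs => hη' s hs⟩
    obtain ⟨N, hN⟩ := pow_unbounded_of_one_lt (2 / η) (one_lt_two (α := ℝ))
    refine ⟨max N 2, fun n hn s => ?_⟩
    by_cases hs : δ ≤ ‖Φ x.1 s‖
    · rw [tau_one ((le_max_right _ _).trans hn), sub_self, mul_zero]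
      · exact hδ.le
      · have h1 : (2 : ℝ) ^ N ≤ 2 ^ n :=
          pow_le_pow_right₀ (by norm_num) ((le_max_left _ _).trans hn)
        have h2 := (div_lt_iff₀ hη).1 hN
        have h3 := hη' s hs
        calc (2 : ℝ) ≤ 2 ^ N * η := h2.le
          _ ≤ 2 ^ n * hh s := by gcongr
    · exact (mul_le_of_le_one_right (norm_nonneg _)
        (by linarith [tau_nonneg n (hh s)])).trans (not_le.1 hs).le
  have tailb : ∀ (x : L) (N : ℕ) (F : Finset ℕ), (∀ n ∈ F, N ≤ n) → ∀ ε, Sg ε → ∀ s,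
      ‖Φ (∑ n ∈ F, ε n • (x.1 * (e (n + 2) - e (n + 1)))) s‖ ≤
        ‖Φ x.1 s‖ * (1 - tau (N + 1) (hh s)) := by
    intro x N F hF ε hε s
    have := norm_sg_sum F ε hε (Φ x.1 s) (fun n => tau (n + 1 + 1) (hh s) - tau (n + 1) (hh s))
      fun n => sub_nonneg.2 (tau_mono (Nat.le_succ _) _)
    refine le_trans (le_of_eq ?_) (this.trans (mul_le_mul_of_nonneg_left
      (sum_tau N 1 F hF _) (norm_nonneg _)))
    congr 1
    simp [hm, he2]
  refine proj_of L h (fun n => e (n + 2) - e (n + 1))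
    (fun n => ⟨e (n + 3) - e n, L.sub_mem (he1 _) (he1 _)⟩) (fun F ε hε => ?_)
    (fun x F ε hε => ?_) (fun x δ hδ => ?_) (fun x => ?_)
  · refine normle (∑ n ∈ F, ε n • (⟨e (n + 3) - e n, L.sub_mem (he1 _) (he1 _)⟩ : L)).1 3
      (by norm_num) fun s => ?_
    have := norm_sg_sum F ε hε 1 (fun n => tau (n + 3) (hh s) - tau n (hh s))
      fun n => sub_nonneg.2 (tau_mono (by omega) _)
    refine le_trans (le_of_eq ?_) (this.trans ?_)
    · congr 1
      simp [he2]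
    · have a0 := sum_tau 0 0 F (fun _ _ => Nat.zero_le _) (hh s)
      have a1 := sum_tau 0 1 F (fun _ _ => Nat.zero_le _) (hh s)
      have a2 := sum_tau 0 2 F (fun _ _ => Nat.zero_le _) (hh s)
      have e3 : ∑ n ∈ F, (tau (n + 3) (hh s) - tau n (hh s)) =
          ∑ n ∈ F, (tau (n + 0 + 1) (hh s) - tau (n + 0) (hh s)) +
          ∑ n ∈ F, (tau (n + 1 + 1) (hh s) - tau (n + 1) (hh s)) +
          ∑ n ∈ F, (tau (n + 2 + 1) (hh s) - tau (n + 2) (hh s)) := by
        rw [← Finset.sum_add_distrib, ← Finset.sum_add_distrib]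
        exact Finset.sum_congr rfl fun n _ => by ring_nf
      rw [norm_one, one_mul, e3]
      linarith [tau_nonneg (0 + 0) (hh s), tau_nonneg (0 + 1) (hh s), tau_nonneg (0 + 2) (hh s)]
  · refine normle _ _ (norm_nonneg _) fun s => (tailb x 0 F (fun _ _ => Nat.zero_le _) ε hε s).trans ?_
    refine (mul_le_of_le_one_right (norm_nonneg _)
      (by linarith [tau_nonneg (0 + 1) (hh s)])).trans ?_
    exact ((Φ x.1).norm_coe_le_norm s).trans (hn _).le
  · obtain ⟨N, hN⟩ := au x δ hδ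
    refine ⟨Finset.range N, fun F hF ε hε => normle _ _ hδ.le fun s =>
      (tailb x N F (fun n hn => ?_) ε hε s).trans (hN _ (Nat.le_succ _) s)⟩
    by_contra hlt
    exact Finset.disjoint_left.1 hF hn (Finset.mem_range.2 (not_le.1 hlt))
  · rw [Metric.tendsto_atTop]
    intro δ hδ
    obtain ⟨N, hN⟩ := au x (δ / 2) (by positivity)
    refine ⟨N, fun n hn => ?_⟩
    rw [dist_eq_norm]
    refine lt_of_le_of_lt (normle _ (δ / 2) (by positivity) fun s => ?_) (by linarith)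
    refine le_trans (le_of_eq ?_) (hN (n + 1) (by omega) s)
    have e1 : ∀ k, (tau (k + 2) (hh s) - tau (k + 1) (hh s)) * (tau (k + 3) (hh s) - tau k (hh s))
        = tau (k + 1 + 1) (hh s) - tau (k + 1) (hh s) := by
      intro k
      have b1 := tau_mul (show k + 2 < k + 3 by omega) (hh s)
      have b2 := tau_mul (show k + 1 < k + 3 by omega) (hh s)
      have b3 := tau_mul (show k < k + 2 by omega) (hh s)
      have b4 := tau_mul (show k < k + 1 by omega) (hh s)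
      linear_combination b1 - b2 - b3 + b4
    have e2 : ∑ k ∈ Finset.range n, (tau (k + 1 + 1) (hh s) - tau (k + 1) (hh s)) =
        tau (n + 1) (hh s) := by
      rw [Finset.sum_range_sub (fun k => tau (k + 1) (hh s))]
      simp [tau]
    have e3 : Φ (∑ k ∈ Finset.range n, x.1 * (e (k + 2) - e (k + 1)) * (e (k + 3) - e k) - x.1) s
        = -(Φ x.1 s * ((1 - tau (n + 1) (hh s) : ℝ) : ℂ)) := by
      rw [← e2, ← Finset.sum_congr rfl fun k _ => e1 k]
      simp [hm, he2, Finset.mul_sum, mul_sub, sub_mul, mul_assoc]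
    rw [e3, norm_neg, norm_mul, Complex.norm_real,
      Real.norm_of_nonneg (by linarith [tau_le (n + 1) (hh s)])]

theorem hered_of_sep (D : Type) [NonUnitalCStarAlgebra D] (hc : ∀ x y : D, x * y = y * x)
    [TopologicalSpace.SeparableSpace D] : Hered D := by
  let _ : NonUnitalCommCStarAlgebra D := { ‹NonUnitalCStarAlgebra D› with mul_comm := hc }
  let G := gelfandStarTransform (Unitization ℂ D)
  have hG : ∀ y, ‖G y‖ = ‖y‖ := fun y => StarAlgEquiv.norm_map G y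
  refine hered_of_rep (Ω := WeakDual.characterSpace ℂ (Unitization ℂ D))
    { toFun := fun x => G (x : Unitization ℂ D)
      map_add' := fun x y => by rw [Unitization.inr_add, map_add]
      map_smul' := fun c x => by rw [Unitization.inr_smul, map_smul]; rfl }
    (fun x => by
      show ‖G (x : Unitization ℂ D)‖ = ‖x‖
      rw [hG, Unitization.norm_inr])
    (fun x y => by
      show G ((x * y : D) : Unitization ℂ D) = G x * G y
      rw [Unitization.inr_mul, map_mul]) fun g => ?_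
  obtain ⟨y, rfl⟩ := G.surjective g
  refine ⟨y.fst, y.snd, ?_⟩
  show G y = y.fst • 1 + G (y.snd : Unitization ℂ D)
  rw [← map_one G, ← map_smul, ← map_add]
  congr 1
  ext <;> simp

end

end Pool.Agent.H.MP_b18d32_an
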