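import Mathlib
import Pool.Agent.H.MP_b18d32_an.A
import Pool.Agent.H.MP_b18d32_an.B

/-! The obstruction to projectivity. -/

namespace Pool.Agent.H.MP_b18d32_an

open Filter Topology Set Defs
open scoped ENNReal

set_option linter.unusedSectionVars false

noncomputable section

section neg
variable {A W : Type} [NonUnitalNormedRing A] [NormedSpace ℂ A]

abbrev YY (A W : Type) [NonUnitalNormedRing A] : Type := A × lp (fun _ : W => A) ∞

def XX (χ : W → A →L[ℂ] ℂ) : Submodule ℂ (YY A W) where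
  carrier := {y | (∀ B, χ B y.1 = χ B (y.2 B)) ∧ Tendsto (fun B => y.2 B) cofinite (𝓝 0)}
  add_mem' := by
    rintro x y ⟨h1, h2⟩ ⟨k1, k2⟩
    refine ⟨fun B => ?_, ?_⟩
    · simp only [Prod.fst_add, Prod.snd_add, lp.coeFn_add, Pi.add_apply, map_add, h1 B, k1 B]
    · simpa using h2.add k2
  zero_mem' := ⟨fun B => by simp, tendsto_const_nhds⟩
  smul_mem' := by
    rintro c x ⟨h1, h2⟩
    refine ⟨fun B => ?_, ?_⟩
    · simp only [Prod.smul_fst, Prod.smul_snd, lp.coeFn_smul, Pi.smul_apply, map_smul, h1 B]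
    · simpa using h2.const_smul c

lemma XX_closed (χ : W → A →L[ℂ] ℂ) : IsClosed (XX χ : Set (YY A W)) := by
  have e1 : ∀ B, Continuous fun y : YY A W => y.2 B := fun B =>
    (lp.lipschitzWith_one_eval (E := fun _ : W => A) ∞ B).continuous.comp continuous_snd
  have h1 : IsClosed {y : YY A W | ∀ B, χ B y.1 = χ B (y.2 B)} := by
    rw [Set.ofPred_forall]
    exact isClosed_iInter fun B => isClosed_eq ((χ B).continuous.comp continuous_fst)
      ((χ B).continuous.comp (e1 B))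
  have h3 : IsClosed {y : YY A W | Tendsto (fun B => y.2 B) cofinite (𝓝 0)} := by
    refine isClosed_of_closure_subset fun y hy => ?_
    rw [Set.mem_ofPred_eq, Metric.tendsto_nhds]
    intro ε hε
    obtain ⟨z, hz, hd⟩ := Metric.mem_closure_iff.1 hy (ε / 2) (by positivity)
    filter_upwards [Metric.tendsto_nhds.1 hz (ε / 2) (by positivity)] with F hF
    have a1 : dist (y.2 F) (z.2 F) ≤ dist y z := by
      have := (lp.lipschitzWith_one_eval (E := fun _ : W => A) ∞ F).dist_le_mul y.2 z.2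
      simp only [NNReal.coe_one, one_mul] at this
      exact this.trans (le_max_right _ _)
    have := dist_triangle (y.2 F) (z.2 F) 0
    linarith
  exact h1.inter h3

def actY (a : A) (y : YY A W) : YY A W :=
  (a * y.1, ⟨fun B => a * y.2 B, memℓp_infty ⟨‖a‖ * ‖y.2‖, by
    rintro _ ⟨B, rfl⟩
    exact (norm_mul_le _ _).trans (mul_le_mul_of_nonneg_left
      (lp.norm_apply_le_norm ENNReal.top_ne_zero _ B) (norm_nonneg _))⟩⟩)

lemma actY_1 (a : A) (y : YY A W) : (actY a y).1 = a * y.1 := rfl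

lemma actY_2 (a : A) (y : YY A W) (B : W) : (actY a y).2 B = a * y.2 B := rfl

lemma YY_ext {x y : YY A W} (h1 : x.1 = y.1) (h2 : ∀ B, x.2 B = y.2 B) : x = y :=
  Prod.ext h1 (lp.ext (funext h2))

lemma actY_norm (a : A) (y : YY A W) : ‖actY a y‖ ≤ ‖a‖ * ‖y‖ := by
  refine max_le ((norm_mul_le _ _).trans (mul_le_mul_of_nonneg_left (norm_fst_le y)
    (norm_nonneg _))) (lp.norm_le_of_forall_le (by positivity) fun B => ?_)
  exact (norm_mul_le _ _).trans (mul_le_mul_of_nonneg_left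
    ((lp.norm_apply_le_norm ENNReal.top_ne_zero _ B).trans (norm_snd_le y)) (norm_nonneg _))

def actX (χ : W → A →L[ℂ] ℂ) (hm : ∀ B f g, χ B (f * g) = χ B f * χ B g) (a : A) (y : XX χ) :
    XX χ :=
  ⟨actY a y.1, fun B => by rw [actY_1, actY_2, hm, hm, y.2.1 B], by
    simpa [actY_2] using y.2.2.const_mul a⟩

lemma actX_coe (χ : W → A →L[ℂ] ℂ) (hm : ∀ B f g, χ B (f * g) = χ B f * χ B g) (a : A)
    (y : XX χ) : (actX χ hm a y).1 = actY a y.1 := rfl

theorem not_hered {N : Type} [IsScalarTower ℂ A A] [SMulCommClass ℂ A A] [CompleteSpace A]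
    [Uncountable W] [Countable N] (χ : W → A →L[ℂ] ℂ) (hχ : ∀ B f, ‖χ B f‖ ≤ ‖f‖)
    (hm : ∀ B f g, χ B (f * g) = χ B f * χ B g)
    (c0 : ∀ f, Tendsto (fun B => χ B f) cofinite (𝓝 0)) (e : W → A) (he : ∀ B, ‖e B‖ ≤ 1)
    (he1 : ∀ B, χ B (e B) = 1) (I : N → A) (hI : ∀ n f, I n * f = f * I n)
    (hf : ∀ f, (∀ n, I n * f = 0) → f = 0) : ¬ Hered A := by
  intro hH
  have : CompleteSpace (XX χ) := (XX_closed χ).completeSpace_coe
  have hX : IsMod (fun a b : A => a * b) (actX χ hm) := by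
    refine ⟨⟨fun a b y => ?_, fun c a y => ?_, fun a x y => ?_, fun c a y => ?_,
      1, one_pos, fun a y => ?_⟩, fun a b y => ?_⟩
    · exact Subtype.ext (YY_ext (by simp [actX_coe, actY_1, add_mul])
        fun B => by simp [actX_coe, actY_2, add_mul])
    · exact Subtype.ext (YY_ext (smul_mul_assoc _ _ _) fun B => smul_mul_assoc _ _ _)
    · exact Subtype.ext (YY_ext (by simp [actX_coe, actY_1, mul_add])
        fun B => by simp [actX_coe, actY_2, mul_add])
    · exact Subtype.ext (YY_ext (mul_smul_comm _ _ _) fun B => mul_smul_comm _ _ _)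
    · rw [one_mul]; exact actY_norm a y.1
    · exact Subtype.ext (YY_ext (by simp [actX_coe, actY_1, mul_assoc])
        fun B => by simp [actX_coe, actY_2, mul_assoc])
  have hY : IsMod (fun a b : A => a * b) (fun a b : A => a * b) :=
    ⟨(ContinuousLinearMap.mul ℂ A).isBoundedBilinearMap, mul_assoc⟩
  let σ : XX χ →L[ℂ] A := (ContinuousLinearMap.fst ℂ _ _).comp (XX χ).subtypeL
  have hb : ∀ f B, ‖χ B f • e B‖ ≤ ‖f‖ := fun f B => by
    rw [norm_smul]
    exact (mul_le_of_le_one_right (norm_nonneg _) (he B)).trans (hχ B f)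
  let ρ0 : A → YY A W := fun f => (f, ⟨fun B => χ B f • e B, memℓp_infty ⟨‖f‖, by
    rintro _ ⟨B, rfl⟩; exact hb f B⟩⟩)
  have r2 : ∀ f B, (ρ0 f).2 B = χ B f • e B := fun f B => rfl
  have hρ0 : ∀ f, ρ0 f ∈ XX χ := fun f => ⟨fun B => by
    rw [r2, map_smul, he1, smul_eq_mul, mul_one], by
    simp only [r2]
    refine squeeze_zero_norm (fun B => ?_) (tendsto_zero_iff_norm_tendsto_zero.1 (c0 f))
    rw [norm_smul]
    exact mul_le_of_le_one_right (norm_nonneg _) (he B)⟩
  have hadm : Adm σ := by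
    refine ⟨fun f => ⟨ρ0 f, hρ0 f⟩, ⟨⟨fun f g => ?_, fun c f => ?_⟩, 1, one_pos, fun f => ?_⟩,
      fun f => rfl⟩
    · exact Subtype.ext (YY_ext rfl fun B => by simp [r2, add_smul])
    · exact Subtype.ext (YY_ext rfl fun B => by simp [r2, smul_smul])
    · rw [one_mul]
      exact max_le le_rfl (lp.norm_le_of_forall_le (norm_nonneg _) fun B => hb f B)
  obtain ⟨ψ, ⟨-, hψ⟩, hσ⟩ := hH ⊤ (by simp) (fun _ _ _ => Submodule.mem_top) (XX χ) A
    (actX χ hm) (fun a b => a * b) hX hY σ ⟨σ.isBoundedLinearMap, fun a x => rfl⟩ hadm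
    (⊤ : Submodule ℂ A).subtypeL ⟨(⊤ : Submodule ℂ A).subtypeL.isBoundedLinearMap, fun a p => rfl⟩
  let z : W → A → A := fun B f => (ψ ⟨f, Submodule.mem_top⟩).1.2 B
  have hz : ∀ B a f, z B (a * f) = a * z B f := fun B a f =>
    congrArg (fun y : XX χ => y.1.2 B) (hψ a ⟨f, Submodule.mem_top⟩)
  have hz1 : ∀ B f, χ B (z B f) = χ B f := fun B f => by
    have h1 := (ψ ⟨f, Submodule.mem_top⟩).2.1 B
    have h2 : (ψ ⟨f, Submodule.mem_top⟩).1.1 = f := hσ ⟨f, Submodule.mem_top⟩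
    rw [h2] at h1
    exact h1.symm
  have hc : (⋃ n, {B | z B (I n) ≠ 0}).Countable := countable_iUnion fun n => by
    have := (ψ ⟨I n, Submodule.mem_top⟩).2.2.countable_compl_preimage_ker
    rw [ker_nhds] at this
    exact this
  obtain ⟨B, hB⟩ : ∃ B, B ∉ ⋃ n, {B | z B (I n) ≠ 0} := by
    by_contra h
    push Not at h
    exact Set.not_countable_univ (hc.mono fun B _ => h B)
  simp only [mem_iUnion, mem_ofPred_eq, not_exists, not_not] at hB
  have : z B (e B) = 0 := hf _ fun n => by rw [← hz, hI, hz, hB, mul_zero]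
  have h1 := hz1 B (e B)
  rw [this, map_zero, he1] at h1
  exact zero_ne_one h1

end neg

end

end Pool.Agent.H.MP_b18d32_an
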