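import Mathlib
import Pool.Agent.H.MP_b18d32_an.C

/-! The algebra of matrix fields over the almost disjoint family. -/

namespace Pool.Agent.H.MP_b18d32_an

open Filter Topology Set Defs
open scoped ENNReal

set_option linter.unusedSectionVars false

noncomputable section

variable {M : Type} [CStarAlgebra M]

abbrev BB (M : Type) [CStarAlgebra M] : Type := lp (fun _ : NN => M) ∞

/-- projections -/
structure Pr (p : WW → M) : Prop where
  mul : ∀ B, p B * p B = p B
  star : ∀ B, star (p B) = p B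
  ne : ∀ B, p B ≠ 0

lemma Pr.norm {p : WW → M} (hp : Pr p) (B : WW) : ‖p B‖ = 1 := by
  have h := CStarRing.norm_star_mul_self (x := p B)
  rw [hp.star, hp.mul] at h
  have h0 : ‖p B‖ ≠ 0 := norm_ne_zero_iff.2 (hp.ne B)
  exact (mul_eq_left₀ h0).1 h.symm

def A0 {p : WW → M} (hp : Pr p) : NonUnitalStarSubalgebra ℂ (BB M) where
  carrier := {f | (∀ B, ∃ z : ℂ, ∀ᶠ n in cofinite, n ∈ LL B → f n = z • p B) ∧
    ∃ H : Finset WW, ∀ᶠ n in cofinite, (∀ B ∈ H, n ∉ LL B) → f n = 0}
  add_mem' := by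
    classical
    rintro f g ⟨h1, H, h2⟩ ⟨k1, K, k2⟩
    refine ⟨fun B => ?_, H ∪ K, ?_⟩
    · obtain ⟨z, hz⟩ := h1 B
      obtain ⟨w, hw⟩ := k1 B
      refine ⟨z + w, ?_⟩
      filter_upwards [hz, hw] with n a b hn
      rw [lp.coeFn_add, Pi.add_apply, a hn, b hn, add_smul]
    · filter_upwards [h2, k2] with n a b hn
      rw [lp.coeFn_add, Pi.add_apply, a fun B hB => hn B (Finset.mem_union_left _ hB),
        b fun B hB => hn B (Finset.mem_union_right _ hB), add_zero]
  zero_mem' := ⟨fun B => ⟨0, Eventually.of_forall fun n _ => by simp⟩, ∅,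
    Eventually.of_forall fun n _ => rfl⟩
  mul_mem' := by
    rintro f g ⟨h1, H, h2⟩ ⟨k1, -⟩
    refine ⟨fun B => ?_, H, ?_⟩
    · obtain ⟨z, hz⟩ := h1 B
      obtain ⟨w, hw⟩ := k1 B
      refine ⟨z * w, ?_⟩
      filter_upwards [hz, hw] with n a b hn
      rw [lp.infty_coeFn_mul, Pi.mul_apply, a hn, b hn, smul_mul_smul_comm, hp.mul]
    · filter_upwards [h2] with n a hn
      rw [lp.infty_coeFn_mul, Pi.mul_apply, a hn, zero_mul]
  smul_mem' := by
    rintro c f ⟨h1, H, h2⟩
    refine ⟨fun B => ?_, H, ?_⟩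
    · obtain ⟨z, hz⟩ := h1 B
      refine ⟨c * z, ?_⟩
      filter_upwards [hz] with n a hn
      rw [lp.coeFn_smul, Pi.smul_apply, a hn, smul_smul]
    · filter_upwards [h2] with n a hn
      rw [lp.coeFn_smul, Pi.smul_apply, a hn, smul_zero]
  star_mem' := by
    rintro f ⟨h1, H, h2⟩
    refine ⟨fun B => ?_, H, ?_⟩
    · obtain ⟨z, hz⟩ := h1 B
      refine ⟨star z, ?_⟩
      filter_upwards [hz] with n a hn
      rw [lp.star_apply, a hn, star_smul, hp.star]
    · filter_upwards [h2] with n a hn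
      rw [lp.star_apply, a hn, star_zero]

instance {p : WW → M} (hp : Pr p) :
    IsClosed ((A0 hp).topologicalClosure : Set (BB M)) :=
  NonUnitalStarSubalgebra.isClosed_topologicalClosure _

/-- the algebra -/
def AT {p : WW → M} (hp : Pr p) : Type := (A0 hp).topologicalClosure

instance {p : WW → M} (hp : Pr p) : NonUnitalCStarAlgebra (AT hp) :=
  inferInstanceAs (NonUnitalCStarAlgebra (A0 hp).topologicalClosure)

variable {p : WW → M} {hp : Pr p}

def val (hp : Pr p) : AT hp →L[ℂ] BB M :=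
  LinearMap.mkContinuous
    { toFun := fun f => Subtype.val f
      map_add' := fun _ _ => rfl
      map_smul' := fun _ _ => rfl } 1 (fun f => by rw [one_mul]; exact le_rfl)

lemma val_norm (f : AT hp) : ‖val hp f‖ = ‖f‖ := rfl

lemma val_mul (f g : AT hp) (n : NN) : val hp (f * g) n = val hp f n * val hp g n := rfl

lemma val_inj {f g : AT hp} (h : ∀ n, val hp f n = val hp g n) : f = g :=
  Subtype.ext (lp.ext (funext h))

lemma val_le (f : AT hp) (n : NN) : ‖val hp f n‖ ≤ ‖f‖ :=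
  lp.norm_apply_le_norm ENNReal.top_ne_zero (val hp f) n

def mkA (f : BB M) (h : f ∈ A0 hp) : AT hp :=
  (⟨f, NonUnitalStarSubalgebra.le_topologicalClosure _ h⟩ : (A0 hp).topologicalClosure)

lemma val_mkA (f : BB M) (h : f ∈ A0 hp) : val hp (mkA f h) = f := rfl

lemma approx (f : AT hp) (ε : ℝ) (hε : 0 < ε) : ∃ g : AT hp, val hp g ∈ A0 hp ∧ ‖f - g‖ < ε := by
  have : val hp f ∈ closure (A0 hp : Set (BB M)) := f.2
  obtain ⟨g, hg, hd⟩ := Metric.mem_closure_iff.1 this ε hε
  refine ⟨mkA g hg, hg, ?_⟩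
  rwa [← val_norm, map_sub, val_mkA, ← dist_eq_norm]

/-- the filter along a member of the family -/
def fl (B : WW) : Filter NN := cofinite ⊓ 𝓟 (LL B)

instance (B : WW) : (fl B).NeBot := (LL_inf B).cofinite_inf_principal_neBot

lemma ev_fl {B : WW} {P : NN → Prop} : (∀ᶠ n in fl B, P n) ↔ ∀ᶠ n in cofinite, n ∈ LL B → P n :=
  eventually_inf_principal

lemma ev_notMem {B C : WW} (h : B ≠ C) : ∀ᶠ n in cofinite, n ∈ LL B → n ∉ LL C := by
  rw [eventually_cofinite]
  refine (LL_ad h).subset fun n hn => ?_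
  simpa using hn

lemma exists_lim (f : AT hp) (B : WW) : ∃ z : ℂ, Tendsto (fun n => val hp f n) (fl B) (𝓝 (z • p B)) := by
  have h : ∀ ε > 0, ∃ z : ℂ, ∀ᶠ n in fl B, dist (val hp f n) (z • p B) < ε := by
    intro ε hε
    obtain ⟨g, ⟨hg, -⟩, hd⟩ := approx f ε hε
    obtain ⟨z, hz⟩ := hg B
    refine ⟨z, (ev_fl.2 hz).mono fun n hn => ?_⟩
    rw [← hn, dist_eq_norm]
    refine lt_of_le_of_lt (le_of_eq_of_le ?_ (val_le (f - g) n)) hd
    rw [map_sub, lp.coeFn_sub, Pi.sub_apply]
  have hc : Cauchy ((fl B).map fun n => val hp f n) := by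
    refine Metric.cauchy_iff.2 ⟨inferInstance, fun ε hε => ?_⟩
    obtain ⟨z, hz⟩ := h (ε / 2) (by positivity)
    refine ⟨Metric.ball (z • p B) (ε / 2), hz, fun x hx y hy => ?_⟩
    have := dist_triangle_right x y (z • p B)
    rw [Metric.mem_ball] at hx hy
    linarith
  obtain ⟨m, hm⟩ := cauchy_map_iff_exists_tendsto.1 hc
  have hcl : m ∈ closure ((ℂ ∙ p B : Submodule ℂ M) : Set M) := by
    refine Metric.mem_closure_iff.2 fun ε hε => ?_
    obtain ⟨z, hz⟩ := h (ε / 2) (by positivity)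
    refine ⟨z • p B, Submodule.smul_mem _ _ (Submodule.mem_span_singleton_self _), ?_⟩
    have := le_of_tendsto (hm.dist tendsto_const_nhds) (hz.mono fun n hn => hn.le)
    linarith
  rw [(Submodule.closed_of_finiteDimensional _).closure_eq] at hcl
  obtain ⟨z, rfl⟩ := Submodule.mem_span_singleton.1 hcl
  exact ⟨z, hm⟩

lemma lim_unique {u : NN → M} {B : WW} {z w : ℂ} (hp : Pr p) (h1 : Tendsto u (fl B) (𝓝 (z • p B)))
    (h2 : Tendsto u (fl B) (𝓝 (w • p B))) : z = w :=
  smul_left_injective ℂ (hp.ne B) (tendsto_nhds_unique h1 h2)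

lemma lim_le (f : AT hp) (B : WW) {z : ℂ} (h : Tendsto (fun n => val hp f n) (fl B) (𝓝 (z • p B))) :
    ‖z‖ ≤ ‖f‖ := by
  have := le_of_tendsto' h.norm (val_le f)
  rwa [norm_smul, hp.norm, mul_one] at this

/-- the characters -/
def chi (B : WW) : AT hp →L[ℂ] ℂ :=
  LinearMap.mkContinuous
    { toFun := fun f => (exists_lim f B).choose
      map_add' := fun f g => lim_unique hp (exists_lim (f + g) B).choose_spec (by
        rw [add_smul]
        exact (exists_lim f B).choose_spec.add (exists_lim g B).choose_spec)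
      map_smul' := fun c f => lim_unique hp (exists_lim (c • f) B).choose_spec (by
        rw [RingHom.id_apply, smul_eq_mul, mul_smul]
        exact (exists_lim f B).choose_spec.const_smul c) } 1
    (fun f => by rw [one_mul]; exact lim_le f B (exists_lim f B).choose_spec)

lemma chi_lim (B : WW) (f : AT hp) : Tendsto (fun n => val hp f n) (fl B) (𝓝 (chi B f • p B)) :=
  (exists_lim f B).choose_spec

lemma chi_le (B : WW) (f : AT hp) : ‖chi B f‖ ≤ ‖f‖ := lim_le f B (chi_lim B f)

lemma chi_eq (B : WW) (f : AT hp) (z : ℂ) (h : ∀ᶠ n in cofinite, n ∈ LL B → val hp f n = z • p B) :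
    chi B f = z :=
  lim_unique hp (chi_lim B f) (tendsto_const_nhds.congr' ((ev_fl.2 h).mono fun _ hn => hn.symm))

lemma chi_mul (B : WW) (f g : AT hp) : chi B (f * g) = chi B f * chi B g := by
  refine lim_unique hp (chi_lim B (f * g)) ?_
  have := (chi_lim B f).mul (chi_lim B g)
  rwa [smul_mul_smul_comm, hp.mul] at this

lemma chi_zero (g : AT hp) (H : Finset WW)
    (h : ∀ᶠ n in cofinite, (∀ B ∈ H, n ∉ LL B) → val hp g n = 0) (B : WW) (hB : B ∉ H) :
    chi B g = 0 := by
  refine chi_eq B g 0 ?_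
  have : ∀ᶠ n in cofinite, ∀ C ∈ H, n ∈ LL B → n ∉ LL C :=
    (eventually_all_finset H).2 fun C hC => ev_notMem (ne_of_mem_of_not_mem hC hB).symm
  filter_upwards [h, this] with n a b hn
  rw [a fun C hC => b C hC hn, zero_smul]

lemma chi_c0 (f : AT hp) : Tendsto (fun B => chi B f) cofinite (𝓝 0) := by
  rw [Metric.tendsto_nhds]
  intro ε hε
  obtain ⟨g, ⟨-, H, hH⟩, hd⟩ := approx f ε hε
  filter_upwards [H.eventually_cofinite_notMem] with B hB
  rw [dist_zero_right]
  have := chi_le B (f - g)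
  rw [map_sub, chi_zero g H hH B hB, sub_zero] at this
  exact this.trans_lt hd

open Classical in
def eB (hp : Pr p) (B : WW) : BB M :=
  ⟨fun n => if n ∈ LL B then p B else 0, memℓp_infty ⟨1, by
    rintro _ ⟨n, rfl⟩
    dsimp only
    split_ifs
    · exact (hp.norm B).le
    · simp⟩⟩

open Classical in
lemma eB_apply (B : WW) (n : NN) : eB hp B n = if n ∈ LL B then p B else 0 := rfl

lemma eB_mem (B : WW) : eB hp B ∈ A0 hp := by
  refine ⟨fun C => ?_, {B}, Eventually.of_forall fun n hn => ?_⟩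
  · by_cases h : C = B
    · exact ⟨1, Eventually.of_forall fun n hn => by rw [eB_apply, if_pos (h ▸ hn), h, one_smul]⟩
    · exact ⟨0, (ev_notMem h).mono fun n hn h' => by rw [eB_apply, if_neg (hn h'), zero_smul]⟩
  · rw [eB_apply, if_neg (hn B (Finset.mem_singleton_self B))]

lemma single_mem (n : NN) (m : M) : lp.single ∞ n m ∈ A0 hp := by
  have h : ∀ᶠ k in cofinite, (lp.single ∞ n m : BB M) k = 0 :=
    (eventually_cofinite_ne n).mono fun k hk => lp.single_apply_ne _ _ _ hk
  exact ⟨fun B => ⟨0, h.mono fun k hk _ => by rw [hk, zero_smul]⟩, ∅, h.mono fun k hk _ => hk⟩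

theorem AT_not_hered : ¬ Hered (AT hp) := by
  refine not_hered (N := NN) chi chi_le chi_mul chi_c0 (fun B => mkA (eB hp B) (eB_mem B))
    (fun B => ?_) (fun B => ?_) (fun n => mkA (lp.single ∞ n 1) (single_mem n 1))
    (fun n f => val_inj fun k => ?_) fun f hf => val_inj fun n => ?_
  · refine lp.norm_le_of_forall_le zero_le_one fun n => ?_
    show ‖eB hp B n‖ ≤ 1
    rw [eB_apply]
    split_ifs
    · exact (hp.norm B).le
    · simp
  · exact chi_eq B _ 1 (Eventually.of_forall fun n hn => by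
      rw [val_mkA, eB_apply, if_pos hn, one_smul])
  · rw [val_mul, val_mul, val_mkA]
    by_cases h : k = n
    · rw [h, lp.single_apply_self, one_mul, mul_one]
    · rw [lp.single_apply_ne _ _ _ h, zero_mul, mul_zero]
  · have := congrArg (fun g => val hp g n) (hf n)
    simp only [val_mul, val_mkA, lp.single_apply_self, one_mul] at this
    exact this

lemma U_countable (q : ℝ → M) (hq : Continuous q) (hne : ∀ s t, s ≠ t → q s * q t ≠ q t * q s)
    (t : WW → ℝ) (ht : Function.Injective t) (hpq : ∀ B, p B = q (t B))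
    (D : NonUnitalStarSubalgebra ℂ (AT hp)) (hc : ∀ x ∈ D, ∀ y ∈ D, x * y = y * x) :
    {B | ∃ f ∈ D, chi B f ≠ 0}.Countable := by
  by_contra hU
  obtain ⟨x, y, hxy, hx, hy⟩ := two_points t ht _ hU
  have hopen : IsOpen {ab : M × M | ab.1 * ab.2 ≠ ab.2 * ab.1} :=
    isOpen_ne_fun (by fun_prop) (by fun_prop)
  obtain ⟨V1, V2, o1, o2, m1, m2, hV⟩ := isOpen_prod_iff.1 hopen (q x) (q y) (hne x y hxy)
  have key : ∀ V : Set M, IsOpen V → ∀ B ∈ {B | ∃ f ∈ D, chi B f ≠ 0} ∩ t ⁻¹' (q ⁻¹' V),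
      (LL B \ {n | ∃ f ∈ D, val hp f n ∈ V}).Finite := by
    rintro V hV B ⟨⟨f, hf, h0⟩, hB⟩
    have h1 := chi_lim B ((chi B f)⁻¹ • f)
    rw [map_smul (chi B), smul_eq_mul, inv_mul_cancel₀ h0, one_smul, hpq] at h1
    have h2 := ev_fl.1 (h1.eventually (hV.mem_nhds hB))
    rw [eventually_cofinite] at h2
    refine h2.subset fun n hn h => hn.2 ⟨_, SMulMemClass.smul_mem _ hf, h hn.1⟩
  refine luzin _ _ (hx _ (hq.continuousAt.preimage_mem_nhds (o1.mem_nhds m1)))
    (hy _ (hq.continuousAt.preimage_mem_nhds (o2.mem_nhds m2))) _ _ (key V1 o1) (key V2 o2) ?_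
  rw [Set.disjoint_left]
  rintro n ⟨f, hf, h1⟩ ⟨g, hg, h2⟩
  refine hV (mk_mem_prod h1 h2) ?_
  show val hp f n * val hp g n = val hp g n * val hp f n
  rw [← val_mul, ← val_mul, hc f hf g hg]

lemma fin_approx (w : BB M) (δ : ℝ) (hδ : 0 ≤ δ) (h : ∀ᶠ n in cofinite, ‖w n‖ ≤ δ) :
    ∃ w0 ∈ Submodule.span ℂ (⋃ n : NN, range fun m : M => (lp.single ∞ n m : BB M)),
      ‖w - w0‖ ≤ δ := by
  rw [eventually_cofinite] at h
  refine ⟨∑ n ∈ h.toFinset, lp.single ∞ n (w n), Submodule.sum_mem _ fun n _ =>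
    Submodule.subset_span (mem_iUnion.2 ⟨n, _, rfl⟩), lp.norm_le_of_forall_le hδ fun k => ?_⟩
  rw [lp.coeFn_sub, Pi.sub_apply, lp.coeFn_sum, Finset.sum_apply]
  by_cases hk : k ∈ h.toFinset
  · rw [Finset.sum_eq_single k (fun n _ hn => lp.single_apply_ne _ _ _ hn.symm)
      (fun h' => absurd hk h'), lp.single_apply_self, sub_self, norm_zero]
    exact hδ
  · rw [Finset.sum_eq_zero fun n hn => lp.single_apply_ne _ _ _ (ne_of_mem_of_not_mem hn hk).symm,
      sub_zero]
    simpa using hk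

lemma mem_closure_span (U : Set WW) (f : AT hp) (hf : ∀ B ∉ U, chi B f = 0) :
    val hp f ∈ closure (Submodule.span ℂ ((⋃ n : NN, range fun m : M => (lp.single ∞ n m : BB M)) ∪
      eB hp '' U) : Set (BB M)) := by
  classical
  refine Metric.mem_closure_iff.2 fun ε hε => ?_
  obtain ⟨g, ⟨hg, H, hH⟩, hd⟩ := approx f (ε / 3) (by positivity)
  have hg' : ∀ B, ∀ᶠ n in cofinite, n ∈ LL B → val hp g n = chi B g • p B := fun B => by
    obtain ⟨z, hz⟩ := hg B
    rwa [chi_eq B g z hz]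
  let v : BB M := ∑ B ∈ H.filter (· ∈ U), chi B g • eB hp B
  have hv : ∀ n, v n = ∑ B ∈ H.filter (· ∈ U), chi B g • eB hp B n := fun n => by
    simp only [v, lp.coeFn_sum, Finset.sum_apply, lp.coeFn_smul, Pi.smul_apply]
  have hfg : ∀ n, ‖val hp f n - val hp g n‖ ≤ ε / 3 := fun n => by
    refine le_trans (le_of_eq_of_le ?_ (val_le (f - g) n)) hd.le
    rw [map_sub, lp.coeFn_sub, Pi.sub_apply]
  have e1 : ∀ᶠ n in cofinite, ∀ B ∈ H, n ∈ LL B → val hp g n = chi B g • p B :=
    (eventually_all_finset H).2 fun B _ => hg' B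
  have e2 : ∀ᶠ n in cofinite, ∀ B ∈ H, ∀ C ∈ H, B ≠ C → n ∈ LL B → n ∉ LL C :=
    (eventually_all_finset H).2 fun B _ => (eventually_all_finset H).2 fun C _ => by
      by_cases h : B = C
      · exact Eventually.of_forall fun n hn => absurd h hn
      · exact (ev_notMem h).mono fun n hn _ => hn
  obtain ⟨w0, hw0, hw⟩ := fin_approx (val hp f - v) (2 * (ε / 3)) (by positivity) (by
    filter_upwards [hH, e1, e2] with n a b c
    rw [lp.coeFn_sub, Pi.sub_apply, hv]
    by_cases hn : ∃ B ∈ H, n ∈ LL B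
    · obtain ⟨B, hB, hnB⟩ := hn
      by_cases hU : B ∈ U
      · rw [Finset.sum_eq_single B (fun C hC hCB => by
          rw [eB_apply, if_neg (c B hB C (Finset.mem_filter.1 hC).1 hCB.symm hnB), smul_zero])
          (fun h => absurd (Finset.mem_filter.2 ⟨hB, hU⟩) h), eB_apply, if_pos hnB, ← b B hB hnB]
        linarith [hfg n]
      · rw [Finset.sum_eq_zero (fun C hC => by
          have hCB : B ≠ C := fun e => hU (e ▸ (Finset.mem_filter.1 hC).2)
          rw [eB_apply, if_neg (c B hB C (Finset.mem_filter.1 hC).1 hCB hnB), smul_zero]),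
          sub_zero]
        have h1 := chi_le B (f - g)
        rw [map_sub, hf B hU, zero_sub, norm_neg] at h1
        have h2 : ‖val hp g n‖ ≤ ε / 3 := by
          rw [b B hB hnB, norm_smul, hp.norm, mul_one]; linarith
        have h3 := norm_add_le (val hp f n - val hp g n) (val hp g n)
        rw [sub_add_cancel] at h3
        linarith [hfg n]
    · push Not at hn
      rw [Finset.sum_eq_zero (fun C hC => by
        rw [eB_apply, if_neg (hn C (Finset.mem_filter.1 hC).1), smul_zero]), sub_zero]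
      have := hfg n
      rw [a hn, sub_zero] at this
      linarith)
  refine ⟨v + w0, Submodule.add_mem _ (Submodule.sum_mem _ fun B hB => Submodule.smul_mem _ _
    (Submodule.subset_span (Or.inr ⟨B, (Finset.mem_filter.1 hB).2, rfl⟩)))
    (Submodule.span_mono subset_union_left hw0), ?_⟩
  rw [dist_eq_norm, ← sub_sub]
  linarith

theorem sep_of [TopologicalSpace.SeparableSpace M] (D : NonUnitalStarSubalgebra ℂ (AT hp))
    (hU : {B | ∃ f ∈ D, chi B f ≠ 0}.Countable) : TopologicalSpace.SeparableSpace D := by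
  have h1 : TopologicalSpace.IsSeparable
      ((⋃ n : NN, range fun m : M => (lp.single ∞ n m : BB M)) ∪
        eB hp '' {B | ∃ f ∈ D, chi B f ≠ 0}) :=
    (TopologicalSpace.IsSeparable.iUnion fun n =>
      TopologicalSpace.isSeparable_range (lp.isometry_single (E := fun _ : NN => M) n).continuous).union
      (hU.image _).isSeparable
  have hiso : Isometry (val hp) := AddMonoidHomClass.isometry_of_norm _ val_norm
  have h2 := hiso.isEmbedding.isSeparable_preimage (h1.span (R := ℂ)).closure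
  refine (h2.mono fun f hf => mem_closure_span _ f fun B hB => ?_).separableSpace
  by_contra h
  exact hB ⟨f, hf, h⟩

theorem main : ∃ (A : Type) (_ : NonUnitalCStarAlgebra A), ¬ Hered A ∧
    ∀ (D : NonUnitalStarSubalgebra ℂ A) [IsClosed (D : Set A)],
      (∀ x ∈ D, ∀ y ∈ D, x * y = y * x) → Hered D := by
  obtain ⟨q, h1, h2, h3, h4, h5⟩ := exists_p
  obtain ⟨t, ht⟩ := exists_t
  have hp : Pr (fun B => q (Real.exp (t B))) := ⟨fun _ => h2 _, fun _ => h3 _, fun _ => h4 _⟩
  refine ⟨AT hp, inferInstance, AT_not_hered, fun D _ hc => ?_⟩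
  have := sep_of D (U_countable (fun s => q (Real.exp s)) (h1.comp Real.continuous_exp)
    (fun s t h => h5 _ _ (Real.exp_injective.ne h) (Real.exp_pos _) (Real.exp_pos _)) t ht
    (fun _ => rfl) D hc)
  exact hered_of_sep D fun x y => Subtype.ext (hc _ x.2 _ y.2)

end

end Pool.Agent.H.MP_b18d32_an
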